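import Pool.Agent.L7h46.CE.Tra

set_option autoImplicit false

namespace Pool.Agent.L7h46.CE

open Pool.Agent.L7h31.CE

/-- basis vectors -/
noncomputable def eb {r : ℕ} (k : Fin (r + 1)) : E r := EuclideanSpace.single k (1 : ℝ)

theorem inner_eb {r : ℕ} (z : E r) (k : Fin (r + 1)) : inner ℝ z (eb k) = z k := by
  unfold eb
  rw [EuclideanSpace.inner_single_right]
  simp

theorem eb_apply {r : ℕ} (k l : Fin (r + 1)) : (eb k : E r) l = if l = k then 1 else 0 := by
  simp [eb]

theorem ext_inner {r : ℕ} {z w : E r} (h : ∀ k, z k = w k) : z = w := by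
  ext k
  exact h k

/-- an integral vector of length one -/
theorem unit_vec {r : ℕ} (v : E r) (hv : inner ℝ v v = (1 : ℝ)) (h0 : ver v = 0)
    (hi : ∀ a, ∃ m : ℤ, hor v a = m) :
    ∃ (b : Fin r) (s : ℝ), (s = 1 ∨ s = -1) ∧ v = s • eb (Fin.castSucc b) := by
  choose m hm using hi
  have hsum : ∑ k : Fin (r + 1), v k * v k = 1 := by
    rw [← hv, PiLp.inner_apply]
    simp [sq]
  rw [Fin.sum_univ_castSucc] at hsum
  have hl : v (Fin.last r) = 0 := h0
  rw [hl] at hsum
  have hmk : ∀ a : Fin r, v (Fin.castSucc a) = m a := hm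
  have hsumi : ∑ a : Fin r, m a * m a = 1 := by
    have : ((∑ a : Fin r, m a * m a : ℤ) : ℝ) = 1 := by
      push_cast
      simpa [hmk] using hsum
    exact_mod_cast this
  have hex : ∃ b, m b ≠ 0 := by
    by_contra hcon
    push Not at hcon
    simp [hcon] at hsumi
  obtain ⟨b, hb⟩ := hex
  have hsplit := Finset.add_sum_erase Finset.univ (fun a : Fin r => m a * m a) (Finset.mem_univ b)
  rw [hsumi] at hsplit
  have hb1 : 1 ≤ m b * m b := by
    have : 0 < m b * m b := mul_self_pos.2 hb
    omega
  have hrest : 0 ≤ ∑ a ∈ Finset.univ.erase b, m a * m a := Finset.sum_nonneg fun a _ => mul_self_nonneg _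
  have hbb : m b * m b = 1 := by omega
  have hz : ∑ a ∈ Finset.univ.erase b, m a * m a = 0 := by omega
  rw [Finset.sum_eq_zero_iff_of_nonneg fun a _ => mul_self_nonneg _] at hz
  have hoth : ∀ a, a ≠ b → m a = 0 := fun a ha =>
    mul_self_eq_zero.1 (hz a (Finset.mem_erase.2 ⟨ha, Finset.mem_univ _⟩))
  refine ⟨b, m b, ?_, ?_⟩
  · rcases mul_self_eq_one_iff.1 hbb with h | h
    · left; rw [h]; norm_num
    · right; rw [h]; norm_num
  · apply ext_inner
    intro k
    rw [PiLp.smul_apply, eb_apply]
    refine Fin.lastCases ?_ (fun a => ?_) k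
    · rw [hl, if_neg (Fin.castSucc_lt_last b).ne']
      simp
    · rw [hmk]
      by_cases hab : a = b
      · subst hab
        simp
      · rw [if_neg (by simpa using hab), hoth a hab]
        simp

theorem conj_pres {r : ℕ} (D : Dat r) (g : E r ≃ᵢ E r) (τ τ' : E r)
    (hg : (fun A => g '' A) '' vtiles (pts D) = vtiles (pts D))
    (h : Pres D τ) (hc : ∀ z, g (τ + z) = τ' + g z) : Pres D τ' := by
  unfold Pres at *
  have e : (fun A : Set (E r) => (fun z => τ' + z) '' A) ∘ (fun A => g '' A) =
      (fun A => g '' A) ∘ (fun A => (fun z => τ + z) '' A) := by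
    funext A
    simp only [Function.comp, Set.image_image]
    congr 1
    funext z
    exact (hc z).symm
  calc (fun A => (fun z => τ' + z) '' A) '' vtiles (pts D)
      = (fun A => (fun z => τ' + z) '' A) '' ((fun A => g '' A) '' vtiles (pts D)) := by rw [hg]
    _ = ((fun A : Set (E r) => (fun z => τ' + z) '' A) ∘ (fun A => g '' A)) '' vtiles (pts D) := by
        rw [Set.image_comp]
    _ = (fun A => g '' A) '' ((fun A => (fun z => τ + z) '' A) '' vtiles (pts D)) := by
        rw [e, Set.image_comp]
    _ = vtiles (pts D) := by rw [h, hg]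

theorem s_LIN (hT : S_TRA) (hP : S_PER) : S_LIN := by
  intro r D hr g hg
  set G := g.toRealAffineIsometryEquiv with hG
  set Λ := G.linearIsometryEquiv with hΛ
  have hgz : ∀ z v, g (v + z) = Λ v + g z := by
    intro z v
    have h1 := G.map_vadd z v
    simpa [hG, hΛ] using h1
  have hg0 : ∀ z, g z = Λ z + g 0 := by
    intro z
    have := hgz 0 z
    simpa using this
  have hstep : ∀ a : Fin r, ∃ (b : Fin r) (s : ℝ), (s = 1 ∨ s = -1) ∧
      Λ (eb (Fin.castSucc a)) = s • eb (Fin.castSucc b) := by
    intro a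
    have hpre : Pres D (eb (Fin.castSucc a)) := by
      apply hP r D
      · unfold ver
        rw [eb_apply, if_neg (Fin.castSucc_lt_last a).ne']
      · intro c
        unfold hor
        rw [eb_apply]
        split_ifs
        · exact ⟨1, by norm_num⟩
        · exact ⟨0, by norm_num⟩
    have h2 := hT r D hr (Λ (eb (Fin.castSucc a)))
      (conj_pres D g (eb (Fin.castSucc a)) _ hg hpre fun z => hgz z _)
    apply unit_vec _ _ h2.1 h2.2
    rw [LinearIsometryEquiv.inner_map_map, inner_eb, eb_apply]
    simp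
  choose σ s hs hσ using hstep
  have hinj : Function.Injective σ := by
    intro a a' h
    by_contra hne
    have h1 : inner ℝ (Λ (eb (Fin.castSucc a))) (Λ (eb (Fin.castSucc a'))) = (0 : ℝ) := by
      rw [LinearIsometryEquiv.inner_map_map, inner_eb, eb_apply, if_neg]
      simpa using fun h => hne h.symm
    rw [hσ, hσ, h, inner_smul_left, inner_smul_right, inner_eb, eb_apply] at h1
    simp only [if_true, conj_trivial, mul_one] at h1
    rcases hs a with h2 | h2 <;> rcases hs a' with h3 | h3 <;> rw [h2, h3] at h1 <;> norm_num at h1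
  have hss : ∀ a, s a * s a = 1 := by
    intro a
    rcases hs a with h | h <;> rw [h] <;> norm_num
  have hbij : Function.Bijective σ := Finite.injective_iff_bijective.1 hinj
  have hhor : ∀ z a, (Λ z) (Fin.castSucc (σ a)) = s a * hor z a := by
    intro z a
    have h1 : eb (Fin.castSucc (σ a)) = s a • Λ (eb (Fin.castSucc a)) := by
      rw [hσ, smul_smul, hss, one_smul]
    rw [← inner_eb, h1, inner_smul_right, LinearIsometryEquiv.inner_map_map, inner_eb]
    rfl
  -- the vertical vector
  have hv : ∀ c : Fin r, (Λ (eb (Fin.last r))) (Fin.castSucc c) = 0 := by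
    intro c
    obtain ⟨a, rfl⟩ := hbij.2 c
    rw [hhor]
    unfold hor
    rw [eb_apply, if_neg (Fin.castSucc_lt_last a).ne]
    simp
  set δ := (Λ (eb (Fin.last r))) (Fin.last r) with hδ
  have hvv : Λ (eb (Fin.last r)) = δ • eb (Fin.last r) := by
    apply ext_inner
    intro k
    rw [PiLp.smul_apply, eb_apply]
    refine Fin.lastCases ?_ (fun a => ?_) k
    · simp [hδ]
    · rw [hv, if_neg (Fin.castSucc_lt_last a).ne]
      simp
  have hdd : δ * δ = 1 := by
    have h1 : inner ℝ (Λ (eb (Fin.last r))) (Λ (eb (Fin.last r))) = (1 : ℝ) := by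
      rw [LinearIsometryEquiv.inner_map_map, inner_eb, eb_apply]
      simp
    rw [hvv, inner_smul_left, inner_smul_right, inner_eb, eb_apply] at h1
    simpa using h1
  have hver : ∀ z, (Λ z) (Fin.last r) = δ * ver z := by
    intro z
    have h1 : eb (Fin.last r) = δ • Λ (eb (Fin.last r)) := by
      rw [hvv, smul_smul, hdd, one_smul]
    rw [← inner_eb, h1, inner_smul_right, LinearIsometryEquiv.inner_map_map, inner_eb]
    rfl
  refine ⟨Equiv.ofBijective σ hbij, s, hor (g 0), δ, ver (g 0), hs, mul_self_eq_one_iff.1 hdd, fun z => ⟨fun a => ?_, ?_⟩⟩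
  · rw [hg0 z, hor_add, Equiv.ofBijective_apply]
    congr 1
    exact hhor z a
  · rw [hg0 z, ver_add]
    congr 1
    exact hver z

end Pool.Agent.L7h46.CE
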