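import Pool.Agent.L7h46.CE.Tra

set_option autoImplicit false

namespace Pool.Agent.L7h46.CE

open Pool.Agent.L7h31.CE

theorem diff_int {x y : ℝ} {m n : ℤ} (hx : (m : ℝ) = x) (hy : (n : ℝ) = y) : ((m - n : ℤ) : ℝ) = x - y := by
  push_cast
  rw [hx, hy]

/-- where the cells go -/
theorem cell_img (hM : S_MAP) {r : ℕ} (D : Dat r) (g : E r → E r)
    (σ : Equiv.Perm (Fin r)) (s b : Fin r → ℝ) (δ : ℤ) (β : ℝ) (hs : ∀ a, s a = 1 ∨ s a = -1)
    (hδ : δ = 1 ∨ δ = -1)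
    (hg : ∀ z, (∀ a, hor (g z) (σ a) = s a * hor z a + b (σ a)) ∧ ver (g z) = δ * ver z + β)
    (hp : (fun A => g '' A) '' vtiles (pts D) = vtiles (pts D))
    (h0 : |β - ((r : ℝ) + 1) * (2 : ℤ)| ≤ 1 / 8) (i : ℤ) :
    ∀ a, ∃ m : ℤ, (m : ℝ) = D.w (2 + δ * i) (σ a) - s a * D.w i a - b (σ a) := by
  have h1 : g '' vor (pts D) (cen D i 0) ∈ vtiles (pts D) := by
    rw [← hp]
    exact ⟨_, ⟨_, ⟨i, 0, rfl⟩, rfl⟩, rfl⟩
  obtain ⟨c, ⟨j, μ, rfl⟩, h2⟩ := h1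
  have hδ' : (δ : ℝ) = 1 ∨ (δ : ℝ) = -1 := by
    rcases hδ with h | h
    · left; rw [h]; norm_num
    · right; rw [h]; norm_num
  have h3 := hM r D i j 0 μ g σ s b δ β hs hδ' hg h2
  have h4 : |β - ((r : ℝ) + 1) * ((j - δ * i : ℤ) : ℝ)| ≤ 1 / 8 := by
    have e : β - ((r : ℝ) + 1) * ((j - δ * i : ℤ) : ℝ) =
        β + δ * (((r : ℝ) + 1) * i) - ((r : ℝ) + 1) * j := by
      push_cast
      ring
    rw [e]
    exact h3.2
  have h5 := int_close (r := r) h0 h4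
  have h6 : j = 2 + δ * i := by omega
  subst h6
  intro a
  refine ⟨- μ (σ a), ?_⟩
  have h7 := h3.1 a
  rw [hor_cen, hor_cen] at h7
  simp only [Pi.zero_apply, Int.cast_zero, add_zero] at h7
  push_cast
  linarith

theorem s_NON (hL : S_LIN) (hM : S_MAP) : S_NON := by
  intro r D hr hiso
  obtain ⟨g, hp, hg0⟩ := hiso (vor (pts D) (cen D 0 0)) ⟨_, ⟨0, 0, rfl⟩, rfl⟩
    (vor (pts D) (cen D 2 0)) ⟨_, ⟨2, 0, rfl⟩, rfl⟩
  obtain ⟨σ, s, b, δ, β, hs, hδ, hg⟩ := hL r D hr g hp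
  have h0 := (hM r D 0 2 0 0 g σ s b δ β hs hδ hg hg0).2
  have h0' : |β - ((r : ℝ) + 1) * (2 : ℤ)| ≤ 1 / 8 := by
    simpa using h0
  have hr0 : 0 < r := by omega
  have hz : ((0 : ℤ) % (r : ℤ)) = (((⟨0, hr0⟩ : Fin r) : ℕ) : ℤ) := by simp
  have hz' : ((r : ℤ) % (r : ℤ)) = (((⟨0, hr0⟩ : Fin r) : ℕ) : ℤ) := by simp
  have st0 := D.step 0 ⟨0, hr0⟩
  have str := D.step r ⟨0, hr0⟩
  rw [if_pos hz] at st0
  rw [if_pos hz'] at str
  have ez : eps 0 = -1 := by simp [eps]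
  have er : eps (r : ℤ) = 1 := by
    unfold eps
    rw [if_neg (by omega)]
  rw [ez] at st0
  rw [er] at str
  rcases hδ with h1 | h1
  · have key := cell_img hM D g σ s b 1 β hs (Or.inl rfl) (by subst h1; simpa using hg) hp h0'
    have k0 := key 0 ⟨0, hr0⟩
    have k1 := key (0 + 1) ⟨0, hr0⟩
    have kr := key r ⟨0, hr0⟩
    have kr1 := key (r + 1) ⟨0, hr0⟩
    obtain ⟨m0, hm0⟩ := k0
    obtain ⟨m1, hm1⟩ := k1
    obtain ⟨mr, hmr⟩ := kr
    obtain ⟨mr1, hmr1⟩ := kr1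
    have d0 := diff_int hm1 hm0
    have dr := diff_int hmr1 hmr
    have t0 := D.step (2 + 1 * 0) (σ ⟨0, hr0⟩)
    have tr := D.step (2 + 1 * (r : ℤ)) (σ ⟨0, hr0⟩)
    have e2 : eps (2 + 1 * 0) = 1 := by simp [eps]
    have er2 : eps (2 + 1 * (r : ℤ)) = 1 := by
      unfold eps
      rw [if_neg (by omega)]
    rw [e2] at t0
    rw [er2] at tr
    have f0 : (2 : ℤ) + 1 * (0 + 1) = 2 + 1 * 0 + 1 := by ring
    have fr : (2 : ℤ) + 1 * ((r : ℤ) + 1) = 2 + 1 * (r : ℤ) + 1 := by ring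
    rw [f0, t0, st0] at d0
    rw [fr, tr, str] at dr
    rcases hs ⟨0, hr0⟩ with hs1 | hs1
    · rw [hs1] at d0
      split_ifs at d0
      · exact no_quarter (x := 1 / 2) (by rw [d0]; ring) (by norm_num)
      · exact no_quarter (x := 1 / 4) (by rw [d0]; ring) (by norm_num)
    · rw [hs1] at dr
      split_ifs at dr
      · exact no_quarter (x := 1 / 2) (by rw [dr]; ring) (by norm_num)
      · exact no_quarter (x := 1 / 4) (by rw [dr]; ring) (by norm_num)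
  · have key := cell_img hM D g σ s b (-1) β hs (Or.inr rfl) (by subst h1; simpa using hg) hp h0'
    have k0 := key 0 ⟨0, hr0⟩
    have k1 := key (0 + 1) ⟨0, hr0⟩
    have kr := key r ⟨0, hr0⟩
    have kr1 := key (r + 1) ⟨0, hr0⟩
    obtain ⟨m0, hm0⟩ := k0
    obtain ⟨m1, hm1⟩ := k1
    obtain ⟨mr, hmr⟩ := kr
    obtain ⟨mr1, hmr1⟩ := kr1
    have d0 := diff_int hm1 hm0
    have dr := diff_int hmr1 hmr
    have t0 := D.step (2 + -1 * (0 + 1)) (σ ⟨0, hr0⟩)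
    have tr := D.step (2 + -1 * ((r : ℤ) + 1)) (σ ⟨0, hr0⟩)
    have e2 : eps (2 + -1 * (0 + 1)) = 1 := by simp [eps]
    have er2 : eps (2 + -1 * ((r : ℤ) + 1)) = 1 := by
      unfold eps
      rw [if_neg (by omega)]
    rw [e2] at t0
    rw [er2] at tr
    have f0 : (2 : ℤ) + -1 * 0 = 2 + -1 * (0 + 1) + 1 := by ring
    have fr : (2 : ℤ) + -1 * (r : ℤ) = 2 + -1 * ((r : ℤ) + 1) + 1 := by ring
    rw [f0, t0, st0] at d0
    rw [fr, tr, str] at dr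
    rcases hs ⟨0, hr0⟩ with hs1 | hs1
    · rw [hs1] at dr
      split_ifs at dr
      · exact no_quarter (x := -(1 / 2)) (by rw [dr]; ring) (by norm_num)
      · exact no_quarter (x := -(1 / 4)) (by rw [dr]; ring) (by norm_num)
    · rw [hs1] at d0
      split_ifs at d0
      · exact no_quarter (x := -(1 / 2)) (by rw [d0]; ring) (by norm_num)
      · exact no_quarter (x := -(1 / 4)) (by rw [d0]; ring) (by norm_num)

end Pool.Agent.L7h46.CE
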