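import Pool.Agent.L7h31.CE.Stm

set_option autoImplicit false

namespace Pool.Agent.L7h46.CE

open Pool.Agent.L7h31.CE

theorem hor_cen {r : ℕ} (D : Dat r) (i : ℤ) (ν : Fin r → ℤ) (a : Fin r) :
    hor (cen D i ν) a = D.w i a + ν a := by
  simp [cen, mk, hor]

theorem ver_cen {r : ℕ} (D : Dat r) (i : ℤ) (ν : Fin r → ℤ) :
    ver (cen D i ν) = ((r : ℝ) + 1) * i := by
  simp [cen, mk, ver]

theorem hor_add {r : ℕ} (z w : E r) (a : Fin r) : hor (z + w) a = hor z a + hor w a := by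
  simp [hor]

theorem ver_add {r : ℕ} (z w : E r) : ver (z + w) = ver z + ver w := by
  simp [ver]

/-- the translation by `τ` preserves the tiling -/
def Pres {r : ℕ} (D : Dat r) (τ : E r) : Prop :=
  (fun A => (fun z => τ + z) '' A) '' vtiles (pts D) = vtiles (pts D)

theorem int_close {r : ℕ} {x : ℝ} {m n : ℤ} (hm : |x - ((r : ℝ) + 1) * m| ≤ 1 / 8)
    (hn : |x - ((r : ℝ) + 1) * n| ≤ 1 / 8) : m = n := by
  by_contra h
  have h1 : (1 : ℝ) ≤ |(m : ℝ) - n| := by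
    have h2 : m - n ≠ 0 := sub_ne_zero.2 h
    have h3 : 1 ≤ |m - n| := Int.one_le_abs h2
    have h4 : ((1 : ℤ) : ℝ) ≤ ((|m - n| : ℤ) : ℝ) := by exact_mod_cast h3
    simpa using h4
  have h2 : ((r : ℝ) + 1) * |(m : ℝ) - n| ≤ 1 / 4 := by
    have h3 : ((r : ℝ) + 1) * |(m : ℝ) - n| = |((r : ℝ) + 1) * (m - n)| := by
      rw [abs_mul, abs_of_pos (by positivity : (0 : ℝ) < (r : ℝ) + 1)]
    rw [h3]
    have h4 : ((r : ℝ) + 1) * ((m : ℝ) - n) = (x - ((r : ℝ) + 1) * n) - (x - ((r : ℝ) + 1) * m) := by ring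
    rw [h4]
    exact (abs_sub _ _).trans (by linarith)
  have h5 : (1 : ℝ) ≤ ((r : ℝ) + 1) * |(m : ℝ) - n| := by
    have : (0 : ℝ) ≤ r := Nat.cast_nonneg r
    nlinarith
  linarith

theorem tr_img (hM : S_MAP) {r : ℕ} (D : Dat r) (τ : E r) (h : Pres D τ) (i : ℤ) (ν : Fin r → ℤ) :
    ∃ (j : ℤ) (μ : Fin r → ℤ), (∀ a, D.w j a + μ a = D.w i a + ν a + hor τ a) ∧
      |ver τ - ((r : ℝ) + 1) * (j - i : ℤ)| ≤ 1 / 8 := by
  have h1 : (fun z => τ + z) '' vor (pts D) (cen D i ν) ∈ vtiles (pts D) := by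
    unfold Pres at h
    rw [← h]
    exact ⟨_, ⟨_, ⟨i, ν, rfl⟩, rfl⟩, rfl⟩
  obtain ⟨c, ⟨j, μ, rfl⟩, h2⟩ := h1
  have h3 := hM r D i j ν μ (fun z => τ + z) (Equiv.refl _) (fun _ => 1) (fun a => hor τ a) 1 (ver τ)
    (fun _ => Or.inl rfl) (Or.inl rfl)
    (fun z => ⟨fun a => by simp only [Equiv.refl_apply, hor_add]; ring, by simp only [ver_add]; ring⟩) h2
  refine ⟨j, μ, fun a => ?_, ?_⟩
  · have := h3.1 a
    simp only [Equiv.refl_apply, hor_cen] at this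
    linarith
  · have := h3.2
    have e : ver τ - ((r : ℝ) + 1) * ((j - i : ℤ) : ℝ) = ver τ + 1 * (((r : ℝ) + 1) * i) - ((r : ℝ) + 1) * j := by
      push_cast
      ring
    rw [e]
    exact this

theorem eps_cases (i : ℤ) : (i = 0 ∧ eps i = -1) ∨ (i ≠ 0 ∧ eps i = 1) := by
  unfold eps
  by_cases h : i = 0
  · left; simp [h]
  · right; simp [h]

theorem no_quarter {m : ℤ} {x : ℝ} (h : (m : ℝ) = x) (h1 : 4 * x = 1 ∨ 4 * x = 2 ∨ 4 * x = -1 ∨ 4 * x = -2) :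
    False := by
  subst h
  rcases h1 with h1 | h1 | h1 | h1
  · have : (4 * m : ℤ) = 1 := by exact_mod_cast h1
    omega
  · have : (4 * m : ℤ) = 2 := by exact_mod_cast h1
    omega
  · have : (4 * m : ℤ) = -1 := by exact_mod_cast h1
    omega
  · have : (4 * m : ℤ) = -2 := by exact_mod_cast h1
    omega

theorem tr_core (hM : S_MAP) {r : ℕ} (hr : 2 ≤ r) (D : Dat r) (τ : E r) (h : Pres D τ) :
    |ver τ| ≤ 1 / 8 ∧ ∀ a, ∃ m : ℤ, hor τ a = m := by
  obtain ⟨j0, μ0, h0, h0'⟩ := tr_img hM D τ h 0 0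
  obtain ⟨j1, μ1, h1, h1'⟩ := tr_img hM D τ h 1 0
  have hj : j1 = j0 + 1 := by
    have := int_close (r := r) h0' h1'
    omega
  subst hj
  have hr0 : 0 < r := by omega
  have a0 : Fin r := ⟨0, hr0⟩
  have e0 := h0 ⟨0, hr0⟩
  have e1 := h1 ⟨0, hr0⟩
  have s0 := D.step 0 ⟨0, hr0⟩
  have sj := D.step j0 ⟨0, hr0⟩
  have hz : eps 0 = -1 := by simp [eps]
  rw [if_pos (by simp), hz] at s0
  simp only [zero_add] at s0
  simp only [Pi.zero_apply, Int.cast_zero, add_zero] at e0 e1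
  rw [sj] at e1
  have key : ((μ0 ⟨0, hr0⟩ - μ1 ⟨0, hr0⟩ : ℤ) : ℝ) =
      (if j0 % (r : ℤ) = (((⟨0, hr0⟩ : Fin r) : ℕ) : ℤ) then eps j0 / 4 else 0) + 1 / 4 := by
    push_cast
    linarith
  have hj0 : j0 = 0 := by
    rcases eps_cases j0 with ⟨h, _⟩ | ⟨_, h⟩
    · exact h
    · exfalso
      split_ifs at key with hc
      · rw [h] at key
        exact no_quarter key (by norm_num)
      · exact no_quarter key (by norm_num)
  subst hj0
  refine ⟨by simpa using h0', fun a => ⟨μ0 a, ?_⟩⟩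
  have := h0 a
  simp only [Pi.zero_apply, Int.cast_zero, add_zero] at this
  linarith

theorem pres_smul {r : ℕ} (D : Dat r) (τ : E r) (h : Pres D τ) (n : ℕ) : Pres D (n • τ) := by
  induction n with
  | zero =>
    unfold Pres
    simp
  | succ n ih =>
    unfold Pres at *
    have e : (fun A : Set (E r) => (fun z => (n + 1) • τ + z) '' A) =
        (fun A => (fun z => τ + z) '' A) ∘ (fun A => (fun z => n • τ + z) '' A) := by
      funext A
      simp only [Function.comp, Set.image_image]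
      congr 1
      funext z
      rw [succ_nsmul']
      rw [add_assoc]
    rw [e, Set.image_comp, ih, h]

theorem ver_nsmul {r : ℕ} (n : ℕ) (τ : E r) : ver (n • τ) = n * ver τ := by
  simp [ver]

theorem s_TRA (hM : S_MAP) : S_TRA := by
  intro r D hr τ h
  have h1 := tr_core hM hr D τ h
  refine ⟨?_, h1.2⟩
  by_contra hne
  have hpos : 0 < |ver τ| := abs_pos.2 hne
  obtain ⟨n, hn⟩ := exists_nat_gt (1 / |ver τ|)
  have h2 := (tr_core hM hr D (n • τ) (pres_smul D τ h n)).1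
  rw [ver_nsmul, abs_mul, Nat.abs_cast] at h2
  rw [div_lt_iff₀ hpos] at hn
  linarith

end Pool.Agent.L7h46.CE
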